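import Pool.Agent.Lib.MP_f63cbe_nt.Spread

/-!
# The structure of the counterexamples to Q1
-/

set_option autoImplicit false

open Finset Filter Topology

namespace Pool.Agent.Results.MP_f63cbe_nt.Counterexamples

open Pool.Agent.Lib.MP_f63cbe_nt

/-- For `p` in `{5, 7, 13}` and `q` in `T(3p)` outside `{5, 7, 13}` the following are equivalent:
there is a counterexample of the type `p`, `q`; the increasing sequence `clo p q` of finite sets is
constant from some stage to the next; there are at least `c N / log N` counterexamples of this type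
up to `N`, for some `c > 0` and all large `N`. In this case the product of the last set is a
counterexample of this type and divides all the others. -/
theorem result (p : ℕ) (hp : p ∈ ({5, 7, 13} : Finset ℕ)) (q : ℕ) (hq : q ∈ T (3 * p))
    (hq5 : q ∉ ({5, 7, 13} : Finset ℕ)) :
    ((∃ n, CounterOf p q n) ↔ ∃ j, clo p q (j + 1) = clo p q j) ∧
    ((∃ n, CounterOf p q n) ↔ ∃ c : ℝ, 0 < c ∧ ∀ᶠ N : ℕ in atTop,
      c * (N / Real.log N) ≤ ({m : ℕ | 1 ≤ m ∧ m ≤ N ∧ CounterOf p q m}).ncard) ∧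
    ∀ j, clo p q (j + 1) = clo p q j → CounterOf p q (∏ l ∈ clo p q j, l) ∧
      ∀ n, CounterOf p q n → (∏ l ∈ clo p q j, l) ∣ n := by
  refine ⟨⟨?_, ?_⟩, ⟨?_, ?_⟩, ?_⟩
  · rintro ⟨n, hn⟩
    exact exists_stable hp hq hq5 hn
  · rintro ⟨j, hj⟩
    exact ⟨_, counterOf_clo hp hq hq5 hj⟩
  · rintro ⟨n, hn⟩
    refine many_of (hn.counterexample hp hq hq5).1.pos (Q_pos n) fun l hl hl1 => ?_
    refine hn.mul hp hq hq5 hl.squarefree fun r hr hrl => ?_
    rw [(Nat.prime_dvd_prime_iff_eq hr hl).mp hrl]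
    exact hl1
  · rintro ⟨c, hc, h⟩
    obtain ⟨N, h1, h2⟩ := (h.and (eventually_ge_atTop 2)).exists
    have hN : (0 : ℝ) < N := by
      have : 0 < N := by omega
      exact_mod_cast this
    have hlog : 0 < Real.log N := Real.log_pos (by exact_mod_cast (by omega : 1 < N))
    have h3 : (0 : ℝ) < ({m : ℕ | 1 ≤ m ∧ m ≤ N ∧ CounterOf p q m}).ncard :=
      lt_of_lt_of_le (mul_pos hc (div_pos hN hlog)) h1
    have h4 : 0 < ({m : ℕ | 1 ≤ m ∧ m ≤ N ∧ CounterOf p q m}).ncard := by exact_mod_cast h3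
    obtain ⟨m, hm⟩ := Set.nonempty_of_ncard_ne_zero h4.ne'
    exact ⟨m, hm.2.2⟩
  · intro j hj
    refine ⟨counterOf_clo hp hq hq5 hj, fun n hn => ?_⟩
    have h := clo_dvd hp hq hq5 hn j
    exact Finset.prod_primes_dvd n (fun l hl => (Nat.prime_of_mem_primeFactors (h hl)).prime)
      fun l hl => Nat.dvd_of_mem_primeFactors (h hl)

end Pool.Agent.Results.MP_f63cbe_nt.Counterexamples
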